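import Mathlib
import Pool.Agent.TH497.PW.IntFlow
import Pool.Agent.TH362.FP.Pos
import Pool.Agent.Y335.FL.Main
import Pool.Agent.K4H76.FL.Large

set_option autoImplicit false

/-!
# Induced forests and induced bipartite subgraphs (MP_c8786f_co)

Let `G` be a bridgeless multigraph.  If `G` has no nowhere-zero 5-flow, or if the characteristic
polynomial of its bond matroid vanishes at an integer `q ≥ 5`, then `G` has two disjoint sets `A`
and `B` of 63 pairwise nonadjacent vertices of degree at least three such that 94 of the vertices in
`A ∪ B` induce a forest and the subgraph induced by `A ∪ B` has no circuits with at most eleven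
edges.

In particular a bridgeless graph has a nowhere-zero 5-flow if

* (`inducedForest`) every induced forest whose vertices have degree at least three has at most 93
  vertices, or
* (`inducedBipartite`) every induced bipartite subgraph whose vertices have degree at least three has
  at most 125 vertices, or has one of its sides (for all choices of the two sides) with at most 62
  vertices.

The order, the degrees and the connectivity are arbitrary.  The 12-cage has 126 vertices, is
bipartite, and its largest induced forests have 94 vertices.

Proof.  The class of the graphs without such sets is closed under contractions of edges: the two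
ends of the contracted edge have degrees with sum at least five if the new vertex has degree at least
three, and so one of them can be used instead of the new vertex; the edges inside the new set are
among those inside the old one.  Let `H` be a counterexample with as few edges as possible.  By the
libraries `Y335/FL` and `Y358/IN` it is simple with girth at least twelve and its degrees are at
least three (apart from isolated vertices).  For an edge `xy` let `A` be the set of the vertices
joined with `x` by a path with 0, 2 or 4 edges avoiding `y`, or with `y` by a path with 1, 3 or 5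
edges avoiding `x`, and define `B` with `x` and `y` exchanged.  Both have at least
`1 + 4 + 16 + 2 + 8 + 32` elements, they are independent sets since there are no circuits with at
most eleven edges, and the vertices at distance at most five from `x` induce a tree.
-/

namespace Pool.Agent.Results.MP_c8786f_co.LargeInducedSubgraphs

open Pool.Agent.TH497.PW

variable {V E : Type}

/-- The edges with exactly one end in `X`. -/
def boundary [DecidableEq V] [Fintype E] (src dst : E → V) (X : Finset V) : Finset E :=
  Finset.univ.filter (fun e => ¬ (src e ∈ X ↔ dst e ∈ X))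

/-- Kirchhoff's law. -/
def IsFlow [DecidableEq V] [Fintype E] (src dst : E → V) (f : E → ℤ) : Prop :=
  ∀ v : V, ∑ e ∈ Finset.univ.filter (fun e => src e = v), f e
    = ∑ e ∈ Finset.univ.filter (fun e => dst e = v), f e

/-- The degree of `v`; loops are not counted. -/
def properDegree [DecidableEq V] [Fintype E] (src dst : E → V) (v : V) : ℕ :=
  (Finset.univ.filter (fun e => src e ≠ dst e ∧ (src e = v ∨ dst e = v))).card

/-- The proper edges (not loops) with both ends in `Z`. -/
def inner [DecidableEq V] [Fintype E] (src dst : E → V) (Z : Finset V) : Finset E :=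
  Finset.univ.filter (fun e => src e ≠ dst e ∧ src e ∈ Z ∧ dst e ∈ Z)

/-- `Z` induces a forest: every nonempty subset of `Z` has fewer inner edges than vertices. -/
def IsForest [DecidableEq V] [Fintype E] (src dst : E → V) (Z : Finset V) : Prop :=
  ∀ Z' ⊆ Z, Z'.Nonempty → (inner src dst Z').card < Z'.card

/-- `A` is an independent set: it has no inner edges. -/
def IsIndependent [DecidableEq V] [Fintype E] (src dst : E → V) (A : Finset V) : Prop :=
  inner src dst A = ∅

/-- The number of the components of the graph with the vertices `V` and the edges `A`. -/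
noncomputable def components (src dst : E → V) (A : Finset E) : ℕ :=
  Nat.card (SimpleGraph.fromRel
    (fun u v : V => ∃ e ∈ A, src e = u ∧ dst e = v)).ConnectedComponent

/-- The rank of `A` in the cycle matroid of the graph. -/
noncomputable def cycleRank [Fintype V] (src dst : E → V) (A : Finset E) : ℕ :=
  Fintype.card V - components src dst A

/-- The rank of `A` in the bond matroid of the graph (the dual of the cycle matroid). -/
noncomputable def bondRank [Fintype V] [Fintype E] [DecidableEq E] (src dst : E → V)
    (A : Finset E) : ℕ :=
  A.card + cycleRank src dst Aᶜ - cycleRank src dst Finset.univ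

/-- The characteristic polynomial of the bond matroid at the integer `x`. -/
noncomputable def bondCharPoly [Fintype V] [Fintype E] [DecidableEq E] (src dst : E → V)
    (x : ℤ) : ℤ :=
  ∑ A : Finset E, (-1) ^ A.card * x ^ (bondRank src dst Finset.univ - bondRank src dst A)

theorem isFlow_iff [DecidableEq V] [Fintype E] (src dst : E → V) (f : E → ℤ) :
    IsFlow src dst f ↔
      ∀ v, ∑ e, f e * ((if src e = v then 1 else 0) - (if dst e = v then 1 else 0)) = 0 := by
  unfold IsFlow
  refine forall_congr' fun v => ?_
  rw [Finset.sum_filter, Finset.sum_filter, ← sub_eq_zero, ← Finset.sum_sub_distrib]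
  have : ∀ e, (if src e = v then f e else 0) - (if dst e = v then f e else 0)
      = f e * ((if src e = v then 1 else 0) - (if dst e = v then 1 else 0)) := by
    intro e
    by_cases h1 : src e = v <;> by_cases h2 : dst e = v <;> simp [h1, h2]
  rw [Finset.sum_congr rfl (fun e _ => this e)]

theorem nzf [Fintype V] [DecidableEq V] [Fintype E] [DecidableEq E] (src dst : E → V)
    (h : Pool.Agent.TH676.Z.FlowOn src dst ∅ ∅) : NZF src dst := by
  obtain ⟨f, h1, _, h3⟩ := h
  refine ⟨f, fun e => h3 e (Finset.notMem_empty _) (Finset.notMem_empty _), fun x => ?_⟩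
  rw [← h1 x]
  unfold Pool.Agent.TH676.Z.bd
  refine Finset.sum_congr rfl fun e _ => ?_
  unfold ic
  by_cases h4 : src e = x <;> by_cases h5 : dst e = x <;> simp [h4, h5]

theorem charPoly_pos [Fintype V] [DecidableEq V] [Fintype E] [DecidableEq E] (src dst : E → V)
    (f : E → ℤ) (h1 : IsFlow src dst f) (h2 : ∀ e, 1 ≤ |f e| ∧ |f e| ≤ 4) (q : ℕ) (hq : 5 ≤ q) :
    0 < bondCharPoly src dst q :=
  Pool.Agent.TH362.FP.chr_pos src dst f h2 h1 q hq

/-- **Theorem.** Bridgeless graphs without two disjoint independent sets of 63 vertices of degree
at least three whose union has an induced forest with 94 vertices and no circuits with at most eleven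
edges. -/
theorem result :
    ∀ (V E : Type) [Fintype V] [DecidableEq V] [Fintype E] [DecidableEq E] (src dst : E → V),
      (¬ ∃ A B Y : Finset V, 63 ≤ A.card ∧ 63 ≤ B.card ∧ Disjoint A B ∧
        (∀ x ∈ A ∪ B, 3 ≤ properDegree src dst x) ∧
        IsIndependent src dst A ∧ IsIndependent src dst B ∧
        Y ⊆ A ∪ B ∧ 94 ≤ Y.card ∧ IsForest src dst Y ∧
        ∀ Z ⊆ A ∪ B, Z.card ≤ 11 → IsForest src dst Z) →
      (∀ Y : Finset V, (boundary src dst Y).card ≠ 1) →
      (∃ f : E → ℤ, IsFlow src dst f ∧ ∀ e, 1 ≤ |f e| ∧ |f e| ≤ 4) ∧
      ∀ q : ℕ, 5 ≤ q → 0 < bondCharPoly src dst q := by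
  intro V E _ _ _ _ src dst hF hb
  have hcl : Pool.Agent.K4H76.FL.ClX src dst := by
    rintro ⟨A, B, Y, h⟩
    have hind : ∀ A : Finset V, (∀ x ∈ A, ∀ y ∈ A, ¬ Pool.Agent.TH676.Z.Adj src dst x y) →
        IsIndependent src dst A := by
      intro A hA
      unfold IsIndependent
      rw [Finset.eq_empty_iff_forall_notMem]
      intro e he
      obtain ⟨_, h1, h2, h3⟩ := Finset.mem_filter.1 he
      exact hA _ h2 _ h3 ⟨h1, e, Or.inl ⟨rfl, rfl⟩⟩
    exact hF ⟨A, B, Y, h.cA, h.cB, h.disj, h.deg, hind A h.iA, hind B h.iB, h.sub, h.cY,
      fun Z hZ hZn => h.forest Z (hZ.trans h.sub) hZn (Or.inl hZ),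
      fun Z hZ hZ11 Z' hZ' hZn => h.forest Z' (hZ'.trans hZ) hZn
        (Or.inr ((Finset.card_le_card hZ').trans hZ11))⟩
  have hfl := Pool.Agent.K4H76.FL.flow_of_ClX Pool.Agent.Y335.FL.contract_all
    src dst hcl (fun Y _ => by rw [Finset.sdiff_empty]; exact hb Y)
  obtain ⟨F, hF, hF0⟩ := int_flow src dst (nzf src dst hfl)
  have hF1 := (isFlow_iff src dst F).mpr hF0
  exact ⟨⟨F, hF1, hF⟩, fun q hq => charPoly_pos src dst F hF1 hF q hq⟩

/-- Bridgeless graphs whose induced forests on vertices of degree at least three have at most 93
vertices. -/
theorem inducedForest (V E : Type) [Fintype V] [DecidableEq V] [Fintype E] [DecidableEq E]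
    (src dst : E → V) (hY : ∀ Y : Finset V, (∀ x ∈ Y, 3 ≤ properDegree src dst x) →
      IsForest src dst Y → Y.card ≤ 93)
    (hb : ∀ Y : Finset V, (boundary src dst Y).card ≠ 1) :
    ∃ f : E → ℤ, IsFlow src dst f ∧ ∀ e, 1 ≤ |f e| ∧ |f e| ≤ 4 := by
  refine (result V E src dst ?_ hb).1
  rintro ⟨A, B, Y, -, -, -, h1, -, -, h2, h3, h4, -⟩
  have := hY Y (fun x hx => h1 x (h2 hx)) h4
  omega

/-- Bridgeless graphs without two disjoint independent sets of 63 vertices of degree at least
three; for example if every induced bipartite subgraph has at most 125 vertices. -/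
theorem inducedBipartite (V E : Type) [Fintype V] [DecidableEq V] [Fintype E] [DecidableEq E]
    (src dst : E → V) (hAB : ∀ A B : Finset V, Disjoint A B →
      (∀ x ∈ A ∪ B, 3 ≤ properDegree src dst x) → IsIndependent src dst A →
      IsIndependent src dst B → A.card ≤ 62 ∨ B.card ≤ 62)
    (hb : ∀ Y : Finset V, (boundary src dst Y).card ≠ 1) :
    ∃ f : E → ℤ, IsFlow src dst f ∧ ∀ e, 1 ≤ |f e| ∧ |f e| ≤ 4 := by
  refine (result V E src dst ?_ hb).1
  rintro ⟨A, B, Y, h1, h2, h3, h4, h5, h6, -⟩
  have := hAB A B h3 h4 h5 h6
  omega

end Pool.Agent.Results.MP_c8786f_co.LargeInducedSubgraphs
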