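import Mathlib
import Pool.Agent.TH497.PW.IntFlow
import Pool.Agent.TH362.FP.Pos
import Pool.Agent.Y335.FL.Main
import Pool.Agent.K4H76.FL.Paths

set_option autoImplicit false

/-!
# Graphs without 63 disjoint paths which join vertices of degree at least three (MP_c8786f_co)

Let `G` be a bridgeless multigraph which does not contain 63 pairwise disjoint connected sets of
vertices with at least two vertices of degree at least three in each (equivalently, 63 pairwise
disjoint paths whose ends are two different vertices of degree at least three).  Then `G` has a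
nowhere-zero 5-flow, and the characteristic polynomial of its bond matroid is positive at all
integers `q ≥ 5`.

In particular (`matching`) this holds for all bridgeless graphs with matching number at most 62 (the
starting files contain the case of vertex cover number at most 62, hence of matching number at most
31).  The number 62 is the matching number of Tutte's 12-cage minus one.  The order, the degrees and
the connectivity are arbitrary.

Proof.  The class is closed under contractions.  Let `H` be a counterexample with as few edges as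
possible.  By the libraries `Y335/FL` and `Y358/IN` it is simple with girth at least twelve, and its
degrees are at least three (apart from isolated vertices); it has `n ≥ 126` vertices with edges.  If
`H` has no matching with 63 edges then by the Tutte-Berge formula there are a set `A` of `a` vertices
and more than `a + n - 126` pairwise disjoint odd sets `O`, each with neighbours in `O ∪ A` only.

If `a ≤ 1` then every `O` has at least 64 (for `a = 0`, at least 126) elements, by counting the
vertices at distance at most five from an edge; this is a contradiction.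

Let `a ≥ 2`, and let `R` be the set of the other vertices.  Then `2 a + ∑ (|O| - 1) + |R| ≤ 125`, so
all sets `O` and `R` have at most 121 elements, and by the Moore bound for irregular graphs (Alon,
Hoory, Linial) such a set `X` has at most `3 (|X| - 1) / 2` inner edges; hence for the number `m` of
the edges of `H - A` one has `2 m ≤ 3 (125 - 2 a)`.  On the other hand every vertex of degree `d` is
in a set of `63 d` edges, so that `63 D ≤ a (m + D)` for the sum `D` of the degrees of the vertices
in `A`, and `m + D ≥ 189`; this gives `3 (63 - a) ≤ m`, a contradiction.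
-/

namespace Pool.Agent.Results.MP_c8786f_co.MatchingNumber

open Pool.Agent.TH497.PW

variable {V E : Type}

/-- The edges with exactly one end in `X`. -/
def boundary [DecidableEq V] [Fintype E] (src dst : E → V) (X : Finset V) : Finset E :=
  Finset.univ.filter (fun e => ¬ (src e ∈ X ↔ dst e ∈ X))

/-- Kirchhoff's law. -/
def IsFlow [DecidableEq V] [Fintype E] (src dst : E → V) (f : E → ℤ) : Prop :=
  ∀ v : V, ∑ e ∈ Finset.univ.filter (fun e => src e = v), f e
    = ∑ e ∈ Finset.univ.filter (fun e => dst e = v), f e

/-- The degree of `v`; loops are not counted. -/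
def properDegree [DecidableEq V] [Fintype E] (src dst : E → V) (v : V) : ℕ :=
  (Finset.univ.filter (fun e => src e ≠ dst e ∧ (src e = v ∨ dst e = v))).card

/-- The set `A` of vertices is connected: for every partition of `A` into two nonempty parts there
is an edge between them. -/
def IsConnected [DecidableEq V] (src dst : E → V) (A : Finset V) : Prop :=
  ∀ P ⊆ A, P.Nonempty → P ≠ A → ∃ e, (src e ∈ P ∧ dst e ∈ A \ P) ∨ (dst e ∈ P ∧ src e ∈ A \ P)

/-- `M` is a matching: its edges are not loops and no two of them have a common end. -/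
def IsMatching (src dst : E → V) (M : Finset E) : Prop :=
  (∀ e ∈ M, src e ≠ dst e) ∧ ∀ e ∈ M, ∀ e' ∈ M, e ≠ e' →
    src e ≠ src e' ∧ src e ≠ dst e' ∧ dst e ≠ src e' ∧ dst e ≠ dst e'

/-- The number of the components of the graph with the vertices `V` and the edges `A`. -/
noncomputable def components (src dst : E → V) (A : Finset E) : ℕ :=
  Nat.card (SimpleGraph.fromRel
    (fun u v : V => ∃ e ∈ A, src e = u ∧ dst e = v)).ConnectedComponent

/-- The rank of `A` in the cycle matroid of the graph. -/
noncomputable def cycleRank [Fintype V] (src dst : E → V) (A : Finset E) : ℕ :=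
  Fintype.card V - components src dst A

/-- The rank of `A` in the bond matroid of the graph (the dual of the cycle matroid). -/
noncomputable def bondRank [Fintype V] [Fintype E] [DecidableEq E] (src dst : E → V)
    (A : Finset E) : ℕ :=
  A.card + cycleRank src dst Aᶜ - cycleRank src dst Finset.univ

/-- The characteristic polynomial of the bond matroid at the integer `x`. -/
noncomputable def bondCharPoly [Fintype V] [Fintype E] [DecidableEq E] (src dst : E → V)
    (x : ℤ) : ℤ :=
  ∑ A : Finset E, (-1) ^ A.card * x ^ (bondRank src dst Finset.univ - bondRank src dst A)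

theorem isFlow_iff [DecidableEq V] [Fintype E] (src dst : E → V) (f : E → ℤ) :
    IsFlow src dst f ↔
      ∀ v, ∑ e, f e * ((if src e = v then 1 else 0) - (if dst e = v then 1 else 0)) = 0 := by
  unfold IsFlow
  refine forall_congr' fun v => ?_
  rw [Finset.sum_filter, Finset.sum_filter, ← sub_eq_zero, ← Finset.sum_sub_distrib]
  have : ∀ e, (if src e = v then f e else 0) - (if dst e = v then f e else 0)
      = f e * ((if src e = v then 1 else 0) - (if dst e = v then 1 else 0)) := by
    intro e
    by_cases h1 : src e = v <;> by_cases h2 : dst e = v <;> simp [h1, h2]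
  rw [Finset.sum_congr rfl (fun e _ => this e)]

theorem nzf [Fintype V] [DecidableEq V] [Fintype E] [DecidableEq E] (src dst : E → V)
    (h : Pool.Agent.TH676.Z.FlowOn src dst ∅ ∅) : NZF src dst := by
  obtain ⟨f, h1, _, h3⟩ := h
  refine ⟨f, fun e => h3 e (Finset.notMem_empty _) (Finset.notMem_empty _), fun x => ?_⟩
  rw [← h1 x]
  unfold Pool.Agent.TH676.Z.bd
  refine Finset.sum_congr rfl fun e _ => ?_
  unfold ic
  by_cases h4 : src e = x <;> by_cases h5 : dst e = x <;> simp [h4, h5]

theorem charPoly_pos [Fintype V] [DecidableEq V] [Fintype E] [DecidableEq E] (src dst : E → V)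
    (f : E → ℤ) (h1 : IsFlow src dst f) (h2 : ∀ e, 1 ≤ |f e| ∧ |f e| ≤ 4) (q : ℕ) (hq : 5 ≤ q) :
    0 < bondCharPoly src dst q :=
  Pool.Agent.TH362.FP.chr_pos src dst f h2 h1 q hq

/-- **Theorem.** Bridgeless graphs without 63 pairwise disjoint connected sets of vertices with at
least two vertices of degree at least three in each. -/
theorem result :
    ∀ (V E : Type) [Fintype V] [DecidableEq V] [Fintype E] [DecidableEq E] (src dst : E → V),
      (∀ F : Finset (Finset V),
        (∀ A ∈ F, IsConnected src dst A ∧
          2 ≤ (A.filter (fun x => 3 ≤ properDegree src dst x)).card) →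
        (∀ A ∈ F, ∀ B ∈ F, A ≠ B → Disjoint A B) → F.card ≤ 62) →
      (∀ Y : Finset V, (boundary src dst Y).card ≠ 1) →
      (∃ f : E → ℤ, IsFlow src dst f ∧ ∀ e, 1 ≤ |f e| ∧ |f e| ≤ 4) ∧
      ∀ q : ℕ, 5 ≤ q → 0 < bondCharPoly src dst q := by
  intro V E _ _ _ _ src dst hF hb
  have hfl := Pool.Agent.K4H76.FL.flow_of_ClT Pool.Agent.Y335.FL.contract_all
    Pool.Agent.Y335.FL.edge62_all src dst hF (fun Y _ => by rw [Finset.sdiff_empty]; exact hb Y)
  obtain ⟨F, hF, hF0⟩ := int_flow src dst (nzf src dst hfl)
  have hF1 := (isFlow_iff src dst F).mpr hF0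
  exact ⟨⟨F, hF1, hF⟩, fun q hq => charPoly_pos src dst F hF1 hF q hq⟩

/-- Bridgeless graphs with matching number at most 62. -/
theorem matching (V E : Type) [Fintype V] [DecidableEq V] [Fintype E] [DecidableEq E]
    (src dst : E → V) (hM : ∀ M : Finset E, IsMatching src dst M → M.card ≤ 62)
    (hb : ∀ Y : Finset V, (boundary src dst Y).card ≠ 1) :
    ∃ f : E → ℤ, IsFlow src dst f ∧ ∀ e, 1 ≤ |f e| ∧ |f e| ≤ 4 := by
  classical
  refine (result V E src dst (fun F hF hdis => ?_) hb).1
  -- an edge in every set
  have hex : ∀ A ∈ F, ∃ e, src e ≠ dst e ∧ src e ∈ A ∧ dst e ∈ A := by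
    intro A hA
    obtain ⟨h1, h2⟩ := hF A hA
    have h3 : 1 < A.card := by
      have := Finset.card_filter_le A (fun x => 3 ≤ properDegree src dst x)
      omega
    obtain ⟨x, hx, y, hy, hxy⟩ := Finset.one_lt_card.1 h3
    obtain ⟨e, he⟩ := h1 {x} (Finset.singleton_subset_iff.2 hx) (Finset.singleton_nonempty x)
      (fun h => hxy (Finset.mem_singleton.1 (h ▸ hy)).symm)
    refine ⟨e, ?_⟩
    rcases he with ⟨h4, h5⟩ | ⟨h4, h5⟩ <;> rw [Finset.mem_singleton] at h4 <;>
      rw [Finset.mem_sdiff, Finset.mem_singleton] at h5
    · exact ⟨fun h => h5.2 (h.symm.trans h4), h4 ▸ hx, h5.1⟩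
    · exact ⟨fun h => h5.2 (h.trans h4), h5.1, h4 ▸ hx⟩
  by_cases hE : Nonempty E
  · choose! ed h1 h2 h3 using hex
    have hd : ∀ A ∈ F, ∀ B ∈ F, A ≠ B → ∀ x ∈ A, ∀ y ∈ B, x ≠ y := by
      intro A hA B hB hAB x hx y hy hxy
      exact Finset.disjoint_left.1 (hdis A hA B hB hAB) hx (hxy ▸ hy)
    have hinj : Set.InjOn ed (F : Set (Finset V)) := by
      intro A hA B hB hAB
      by_contra hne
      exact hd A hA B hB hne _ (h2 A hA) _ (h2 B hB) (by rw [hAB])
    rw [← Finset.card_image_of_injOn hinj]
    refine hM _ ⟨?_, ?_⟩
    · intro e he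
      obtain ⟨A, hA, rfl⟩ := Finset.mem_image.1 he
      exact h1 A hA
    · intro e he e' he' hne
      obtain ⟨A, hA, rfl⟩ := Finset.mem_image.1 he
      obtain ⟨B, hB, rfl⟩ := Finset.mem_image.1 he'
      have h := hd A hA B hB (fun h => hne (by rw [h]))
      exact ⟨h _ (h2 A hA) _ (h2 B hB), h _ (h2 A hA) _ (h3 B hB), h _ (h3 A hA) _ (h2 B hB),
        h _ (h3 A hA) _ (h3 B hB)⟩
  · have : F = ∅ := by
      rw [Finset.eq_empty_iff_forall_notMem]
      intro A hA
      obtain ⟨e, _⟩ := hex A hA
      exact hE ⟨e⟩
    rw [this, Finset.card_empty]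
    exact Nat.zero_le _

end Pool.Agent.Results.MP_c8786f_co.MatchingNumber
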