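import Mathlib
import Pool.Agent.TH497.PW.IntFlow
import Pool.Agent.TH362.FP.Pos
import Pool.Agent.Y335.FL.Main
import Pool.Agent.K4H84.ST.Face

set_option autoImplicit false

/-!
# String graphs and region intersection graphs on surfaces (MP_c8786f_co)

Let `G` be a bridgeless multigraph and let `S` be a set of `k ≤ 18` vertices such that the graph
`G - S` (parallel edges and loops are ignored) is the intersection graph of connected sets of
vertices of a finite host graph `N`: the vertices `v` of `G - S` have connected regions `R v` in
`N`, and different `u`, `v` are adjacent if and only if `R u` and `R v` meet.  Suppose that `N`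
satisfies MacLane's condition with defect `h` (there is a family of elements of the cycle space of
`N` over `GF(2)` such that every edge of `N` is in at most two of them and the codimension of their
span in the cycle space is at most `h`; for a graph `N` embedded in a surface of Euler genus `h` the
boundaries of the faces are such a family).  If `6 h + 7 k ≤ 137` then `G` has a nowhere-zero
5-flow, and the characteristic polynomial of its bond matroid is positive at all integers `q ≥ 5`.

For `S = ∅` and `h = 0` these are all bridgeless string graphs, the intersection graphs of connected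
sets in the plane (for example planar graphs, intersection graphs of segments or of discs or of
convex sets, circle graphs, cocomparability graphs, complete graphs); for `S = ∅` they are the
string graphs of the surfaces of Euler genus at most 22.  There is no condition on the degrees, the
genus or the treewidth of `G` itself.

Proof.  (1) The class of these graphs is closed under contractions of edges (the union of two
regions which meet is connected; an edge with an end in `S` is contracted to a vertex of `S`), not
under deletions.  A counterexample `G` which is minimal with respect to contractions has girth at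
least twelve, and every vertex with a neighbour has three neighbours.

(2) Take for `G - S` a host `N` with defect `h` for which the number of its used vertices and edges
is minimal.  Since `G` has no triangles every vertex of `N` is in at most two regions.  By
minimality (contract an edge of `N` whose ends `x`, `y` are such that every region which contains `x`
contains `y`; delete edges of `N` which are not needed) every vertex of `N` is in exactly two
regions (its label, an edge of `G - S`), every edge of `N` is inside exactly one region, the edges
inside a region form a tree.  So `|E(N)| ≥ 2 X - n'`, where `X ≥ m'` is the number of vertices of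
`N` and `m'` and `n'` are the numbers of edges and vertices of `G - S`.

(3) Two vertices `p`, `q` of a face of `N` have different labels: otherwise they could be
identified (the face splits into two faces, so that the defect is kept).  Hence the labels along a
circuit in a face form a closed trail of `G - S`, which is not trivial since the regions are trees,
and so every face of `N` has at least twelve edges.

(4) Therefore `12 (c - h + 1) ≤ 2 |E(N)|` for the dimension `c ≥ |E(N)| - X + 1` of the cycle space
of `N`, which with (2) gives `8 m' ≤ 10 n' + 12 h - 24`; this contradicts `3 n' ≤ 2 m' + d`,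
`63 d ≤ k (m' + d)` and `m' + d ≥ 189`, where `d` is the sum of the degrees of the vertices of `S`
(balls in graphs of girth twelve).
-/

namespace Pool.Agent.Results.MP_c8786f_co.StringGraphs

open Pool.Agent.TH497.PW

variable {V E W D : Type}

/-- The edges with exactly one end in `Y`. -/
def boundary [DecidableEq V] [Fintype E] (src dst : E → V) (Y : Finset V) : Finset E :=
  Finset.univ.filter (fun e => ¬ (src e ∈ Y ↔ dst e ∈ Y))

/-- Kirchhoff's law. -/
def IsFlow [DecidableEq V] [Fintype E] (src dst : E → V) (f : E → ℤ) : Prop :=
  ∀ v : V, ∑ e ∈ Finset.univ.filter (fun e => src e = v), f e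
    = ∑ e ∈ Finset.univ.filter (fun e => dst e = v), f e

/-- The cycle space over `GF(2)` of a graph: the functions on the edges which satisfy Kirchhoff's
law modulo 2. -/
def cycleSpace [DecidableEq W] [Fintype D] (src dst : D → W) :
    Submodule (ZMod 2) (D → ZMod 2) where
  carrier := {x | ∀ v : W, ∑ e ∈ Finset.univ.filter (fun e => src e = v), x e
      + ∑ e ∈ Finset.univ.filter (fun e => dst e = v), x e = 0}
  add_mem' := by
    intro a b h2 h4 v
    simp only [Pi.add_apply, Finset.sum_add_distrib]
    have := congrArg₂ (· + ·) (h2 v) (h4 v)
    simp only [add_zero] at this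
    rw [← this]
    ring
  zero_mem' := fun v => by simp
  smul_mem' := by
    intro c a h2 v
    simp only [Pi.smul_apply, smul_eq_mul, ← Finset.mul_sum]
    rw [← mul_add, h2 v, mul_zero]

/-- MacLane's condition with defect `h`: there is a finite family of elements of the cycle space
such that every edge is in at most two of them and the dimension of the cycle space is at most the
dimension of their span plus `h`. -/
def MacLaneDefect [DecidableEq W] [Fintype D] (src dst : D → W) (h : ℕ) : Prop :=
  ∃ (k : ℕ) (K : Fin k → D → ZMod 2), (∀ i, K i ∈ cycleSpace src dst) ∧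
    (∀ e, (Finset.univ.filter (fun i => K i e ≠ 0)).card ≤ 2) ∧
    Module.finrank (ZMod 2) (cycleSpace src dst) ≤
      Module.finrank (ZMod 2) (Submodule.span (ZMod 2) (Set.range K)) + h

/-- The simple graph of a multigraph. -/
def simple (src dst : D → W) : SimpleGraph W :=
  SimpleGraph.fromRel (fun x y => ∃ d, src d = x ∧ dst d = y)

/-- The graph `(src, dst)` without the vertices in `S` is the intersection graph of the sets `R v`
of vertices of the host graph `(src', dst')`, which are connected (any two vertices of the set are
joined by a path in the set). -/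
structure RegionIntersectionGraph (src dst : E → V) (S : Finset V) (src' dst' : D → W)
    (R : V → Set W) : Prop where
  connected : ∀ v, v ∉ S → ((simple src' dst').induce (R v)).Preconnected
  adj_iff : ∀ u v, u ∉ S → v ∉ S → u ≠ v →
    ((∃ e, (src e = u ∧ dst e = v) ∨ (src e = v ∧ dst e = u)) ↔ (R u ∩ R v).Nonempty)

/-- The number of the components of the graph with the vertices `V` and the edges `A`. -/
noncomputable def components (src dst : E → V) (A : Finset E) : ℕ :=
  Nat.card (SimpleGraph.fromRel
    (fun u v : V => ∃ e ∈ A, src e = u ∧ dst e = v)).ConnectedComponent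

/-- The rank of `A` in the cycle matroid of the graph. -/
noncomputable def cycleRank [Fintype V] (src dst : E → V) (A : Finset E) : ℕ :=
  Fintype.card V - components src dst A

/-- The rank of `A` in the bond matroid of the graph (the dual of the cycle matroid). -/
noncomputable def bondRank [Fintype V] [Fintype E] [DecidableEq E] (src dst : E → V)
    (A : Finset E) : ℕ :=
  A.card + cycleRank src dst Aᶜ - cycleRank src dst Finset.univ

/-- The characteristic polynomial of the bond matroid at the integer `x`. -/
noncomputable def bondCharPoly [Fintype V] [Fintype E] [DecidableEq E] (src dst : E → V)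
    (x : ℤ) : ℤ :=
  ∑ A : Finset E, (-1) ^ A.card * x ^ (bondRank src dst Finset.univ - bondRank src dst A)

theorem isFlow_iff [DecidableEq V] [Fintype E] (src dst : E → V) (f : E → ℤ) :
    IsFlow src dst f ↔
      ∀ v, ∑ e, f e * ((if src e = v then 1 else 0) - (if dst e = v then 1 else 0)) = 0 := by
  unfold IsFlow
  refine forall_congr' fun v => ?_
  rw [Finset.sum_filter, Finset.sum_filter, ← sub_eq_zero, ← Finset.sum_sub_distrib]
  have : ∀ e, (if src e = v then f e else 0) - (if dst e = v then f e else 0)
      = f e * ((if src e = v then 1 else 0) - (if dst e = v then 1 else 0)) := by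
    intro e
    by_cases h1 : src e = v <;> by_cases h2 : dst e = v <;> simp [h1, h2]
  rw [Finset.sum_congr rfl (fun e _ => this e)]

theorem nzf [Fintype V] [DecidableEq V] [Fintype E] [DecidableEq E] (src dst : E → V)
    (h : Pool.Agent.TH676.Z.FlowOn src dst ∅ ∅) : NZF src dst := by
  obtain ⟨f, h1, _, h3⟩ := h
  refine ⟨f, fun e => h3 e (Finset.notMem_empty _) (Finset.notMem_empty _), fun x => ?_⟩
  rw [← h1 x]
  unfold Pool.Agent.TH676.Z.bd
  refine Finset.sum_congr rfl fun e _ => ?_
  unfold ic
  by_cases h4 : src e = x <;> by_cases h5 : dst e = x <;> simp [h4, h5]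

theorem cycleSpace_eq [Fintype W] [DecidableEq W] [Fintype D] [DecidableEq D] (src dst : D → W) :
    cycleSpace src dst = Pool.Agent.TH676.Z.ZF src dst Finset.univ := by
  ext x
  have h2 : ∀ v, Pool.Agent.TH676.Z.bd2 src dst x v =
      ∑ e ∈ Finset.univ.filter (fun e => src e = v), x e
        + ∑ e ∈ Finset.univ.filter (fun e => dst e = v), x e := by
    intro v
    unfold Pool.Agent.TH676.Z.bd2
    rw [Finset.sum_add_distrib, Finset.sum_filter, Finset.sum_filter]
  constructor
  · intro h
    exact ⟨fun e he => absurd (Finset.mem_univ e) he, fun v => by rw [h2 v]; exact h v⟩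
  · rintro ⟨_, h'⟩ v
    rw [← h2 v]
    exact h' v

/-- connected sets in the form used in the proof -/
theorem cn_of_preconnected [Fintype W] [DecidableEq W] [Fintype D] [DecidableEq D]
    {src dst : D → W} {R : Finset W} (h : ((simple src dst).induce (R : Set W)).Preconnected) :
    Pool.Agent.K4H84.ST.Cn src dst Finset.univ R := by
  classical
  intro Y hY hne hneq
  obtain ⟨y, hy⟩ := hne
  obtain ⟨z, hz, hzY⟩ : ∃ z ∈ R, z ∉ Y := by
    by_contra hcon
    push Not at hcon
    exact hneq (Finset.Subset.antisymm hY hcon)
  obtain ⟨p⟩ := h ⟨y, hY hy⟩ ⟨z, hz⟩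
  obtain ⟨d, _, h1, h2⟩ := p.exists_boundary_dart {w | (w : W) ∈ Y} hy hzY
  have h3 := d.adj
  rw [SimpleGraph.comap_adj] at h3
  simp only [Function.Embedding.subtype_apply, simple, SimpleGraph.fromRel_adj] at h3
  obtain ⟨_, h4 | h4⟩ := h3
  · obtain ⟨e, h5, h6⟩ := h4
    exact ⟨e, Finset.mem_univ _, _, _, Or.inl ⟨h5, h6⟩, h1, d.snd.2, h2⟩
  · obtain ⟨e, h5, h6⟩ := h4
    exact ⟨e, Finset.mem_univ _, _, _, Or.inr ⟨h5, h6⟩, h1, d.snd.2, h2⟩

theorem charPoly_pos [Fintype V] [DecidableEq V] [Fintype E] [DecidableEq E] (src dst : E → V)
    (f : E → ℤ) (h1 : IsFlow src dst f) (h2 : ∀ e, 1 ≤ |f e| ∧ |f e| ≤ 4) (q : ℕ) (hq : 5 ≤ q) :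
    0 < bondCharPoly src dst q :=
  Pool.Agent.TH362.FP.chr_pos src dst f h2 h1 q hq

theorem result :
    ∀ (V E W D : Type) [Fintype V] [DecidableEq V] [Fintype E] [DecidableEq E] [Fintype W]
      [DecidableEq W] [Fintype D] [DecidableEq D]
      (src dst : E → V) (S : Finset V) (src' dst' : D → W) (R : V → Set W) (h : ℕ),
      6 * h + 7 * S.card ≤ 137 → S.card ≤ 18 →
      MacLaneDefect src' dst' h →
      RegionIntersectionGraph src dst S src' dst' R →
      (∀ Y : Finset V, (boundary src dst Y).card ≠ 1) →
      (∃ f : E → ℤ, IsFlow src dst f ∧ ∀ e, 1 ≤ |f e| ∧ |f e| ≤ 4) ∧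
      ∀ q : ℕ, 5 ≤ q → 0 < bondCharPoly src dst q := by
  classical
  intro V E W D _ _ _ _ _ _ _ _ src dst S src' dst' R h hkh hk hM hR hb
  have hM1 : Pool.Agent.TH676.Z.Mac h src' dst' Finset.univ := by
    obtain ⟨k, K, h1, h2, h3⟩ := hM
    rw [cycleSpace_eq] at h3
    exact ⟨k, K, fun i => by rw [← cycleSpace_eq]; exact h1 i, h2, h3⟩
  have hR1 : Pool.Agent.K4H84.ST.Rp (Pool.Agent.TH676.Z.Adj src dst) S src' dst' Finset.univ
      (fun v => if v ∈ S then ∅ else (R v).toFinset) := by
    refine ⟨fun v => ?_, fun v hv => if_pos hv, fun u v hu hv huv => ?_⟩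
    · by_cases hv : v ∈ S
      · simp only [hv, if_true]
        exact Pool.Agent.K4H84.ST.cn_empty _ _ _
      · simp only [hv, if_false]
        refine cn_of_preconnected ?_
        rw [Set.coe_toFinset]
        exact hR.connected v hv
    · have h1 := hR.adj_iff u v hu hv huv
      simp only [hu, hv, if_false, Set.mem_toFinset]
      constructor
      · rintro ⟨_, he⟩
        exact h1.1 he
      · intro hx
        exact ⟨huv, h1.2 hx⟩
  have hbr : Pool.Agent.TH676.Z.Br src dst ∅ ∅ :=
    fun Y _ => by rw [Finset.sdiff_empty]; exact hb Y
  have hfl : Pool.Agent.TH676.Z.FlowOn src dst ∅ ∅ :=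
    Pool.Agent.K4H84.ST.stringFlow Pool.Agent.Y335.FL.contract_all Pool.Agent.Y335.FL.edge62_all
      S.card h hkh hk src dst
      ⟨S, le_rfl, W, D, inferInstance, inferInstance, inferInstance, inferInstance, src', dst',
        Finset.univ, _, hR1, hM1⟩ hbr
  obtain ⟨F, hF, hF0⟩ := int_flow src dst (nzf src dst hfl)
  have hF1 := (isFlow_iff src dst F).mpr hF0
  exact ⟨⟨F, hF1, hF⟩, fun q hq => charPoly_pos src dst F hF1 hF q hq⟩

end Pool.Agent.Results.MP_c8786f_co.StringGraphs
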