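import Pool.Agent.K4H96.VT.Factor
import Pool.Agent.K4H96.VT.EdgeT

set_option autoImplicit false

/-!
# Nowhere-zero 5-flows of vertex-transitive and edge-transitive graphs (MP_c8786f_co)

Let `G₀` be a finite connected simple graph with at least three vertices which is
vertex-transitive, or which is edge-transitive and has minimum degree at least three.  Then `G₀`
and all its finite coverings have nowhere-zero 5-flows, and the characteristic polynomials of
their bond matroids are positive at all integers `q ≥ 5`, except possibly if `G₀` is cubic,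
vertex-transitive, not bipartite and either

* all circuits of `G₀` have at least twelve edges, and `G₀` is edge-transitive or has a
  2-factor which is preserved by all automorphisms and all of whose circuits have the same odd
  length `m ≥ 13`; or
* `G₀` has triangles and all other circuits have at least 24 edges.

(In the second case `G₀` is obtained from a cubic arc-transitive graph with girth at least twelve
by replacing all vertices by triangles.)  So the 5-flow conjecture holds for all vertex-transitive
and edge-transitive graphs with circuits of length 4, ..., 11, and for their coverings, whose girth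
and automorphism groups are arbitrary.

Proof.  (1) Let `R` be an invariant set of edges and consider the nonempty proper vertex sets whose
boundaries avoid `R` and have the minimal number `k` of edges.  By submodularity the smallest of
these sets are blocks of imprimitivity.  If `G₀` is vertex-transitive with degree `d` then all
vertices of such a block `X` have the same number `r` of neighbours outside and
`k = r |X| ≥ r (d - r + 1) ≥ d` (Mader; `R` is empty).  If `G₀` is edge-transitive then `X` has no
inner edges, and `k` is the minimum degree.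

(2) For `k ≥ 4` the library (`ElevenNewEdges`) gives a nowhere-zero 5-flow.  If `G₀` is cubic and
vertex-transitive let `R` be the set of the edges which belong to circuits with at most eleven
edges, or with at most eleven edges outside the union of these circuits.  By the library `G₀` has a
nowhere-zero 5-flow if all cuts which avoid `R` have at least four edges.  Otherwise `k = 3`, and a
block has one vertex or it is a triangle.  In the first case `R` is empty.  In the second case every
vertex is on exactly one triangle and on one edge outside `R`; a circuit with at most 23 edges has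
at most eleven edges outside the triangles, so it is contained in `R` and it is a triangle.

(3) A cubic graph with a 2-factor whose circuits are even has a nowhere-zero 4-flow.  If a
vertex-transitive cubic graph is not edge-transitive then an orbit of edges or its complement is
an invariant 2-factor, and its circuits have the same length.

(4) An edge-transitive graph which is not vertex-transitive is bipartite.  If it is not cubic and
has minimum degree three then its 3-edge-cuts are the boundaries of the vertices of degree three,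
which are not adjacent, and the local condition of `ElevenNewEdges` holds.
-/

namespace Pool.Agent.Results.MP_c8786f_co.TransitiveGraphs

variable {V W : Type}

/-- The automorphisms of `G` act transitively on the vertices. -/
def VertexTransitive (G : SimpleGraph V) : Prop :=
  ∀ u v : V, ∃ g : G ≃g G, g u = v

/-- The automorphisms of `G` act transitively on the edges. -/
def EdgeTransitive (G : SimpleGraph V) : Prop :=
  ∀ u v x y : V, G.Adj u v → G.Adj x y → ∃ g : G ≃g G, s(g u, g v) = s(x, y)

/-- `G` has a 2-factor `K` (a spanning 2-regular subgraph) which is preserved by all automorphisms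
of `G` and whose circuits all have the same odd length `m ≥ 13`. -/
def OddTwoFactor (G : SimpleGraph V) : Prop :=
  ∃ K : SimpleGraph V, K ≤ G ∧
    (∀ (g : G ≃g G) (u v : V), K.Adj u v → K.Adj (g u) (g v)) ∧
    (∀ v, (K.neighborSet v).ncard = 2) ∧
    ∃ m : ℕ, Odd m ∧ 13 ≤ m ∧ ∀ (a : V) (c : K.Walk a a), c.IsCycle → c.length = m

/-- The possible exceptions. -/
def Exceptional (G : SimpleGraph V) : Prop :=
  (∀ v, (G.neighborSet v).ncard = 3) ∧ VertexTransitive G ∧ ¬ G.Colorable 2 ∧
    (((∀ (a : V) (c : G.Walk a a), c.IsCycle → 12 ≤ c.length) ∧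
        (EdgeTransitive G ∨ OddTwoFactor G)) ∨
      ((∃ (a : V) (c : G.Walk a a), c.IsCycle ∧ c.length = 3) ∧
        ∀ (a : V) (c : G.Walk a a), c.IsCycle → c.length = 3 ∨ 24 ≤ c.length))

/-- `p` is a covering projection of `G` to `G₀`: a homomorphism which maps the neighbours of every
vertex `w` bijectively to the neighbours of `p w`. -/
def IsCovering (G₀ : SimpleGraph V) (G : SimpleGraph W) (p : W → V) : Prop :=
  (∀ w w' : W, G.Adj w w' → G₀.Adj (p w) (p w')) ∧
    ∀ (w : W) (v : V), G₀.Adj (p w) v → ∃! w' : W, G.Adj w w' ∧ p w' = v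

/-- A nowhere-zero 5-flow: an antisymmetric integer function on the pairs of vertices, zero outside
the edges, of absolute value `1, 2, 3` or `4` on the edges, with sum zero at every vertex. -/
def NowhereZeroFiveFlow [Fintype W] (G : SimpleGraph W) : Prop :=
  ∃ f : W → W → ℤ, (∀ u v, f u v = - f v u) ∧ (∀ u v, ¬ G.Adj u v → f u v = 0) ∧
    (∀ u, ∑ v, f u v = 0) ∧ ∀ u v, G.Adj u v → 1 ≤ |f u v| ∧ |f u v| ≤ 4

/-- The number of the components of the graph with the vertices `W` and the edges `A`. -/
noncomputable def components (A : Finset (Sym2 W)) : ℕ :=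
  Nat.card (SimpleGraph.fromEdgeSet (A : Set (Sym2 W))).ConnectedComponent

/-- The rank of the set `A` of edges in the cycle matroid. -/
noncomputable def cycleRank [Fintype W] (A : Finset (Sym2 W)) : ℕ :=
  Fintype.card W - components A

/-- The rank of `A` in the bond matroid (the dual of the cycle matroid) of the graph with the set
`E` of edges. -/
noncomputable def bondRank [Fintype W] [DecidableEq W] (E A : Finset (Sym2 W)) : ℕ :=
  A.card + cycleRank (E \ A) - cycleRank E

/-- The characteristic polynomial of the bond matroid of `G` at the integer `x`. -/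
noncomputable def bondCharPoly [Fintype W] [DecidableEq W] (G : SimpleGraph W)
    [DecidableRel G.Adj] (x : ℤ) : ℤ :=
  ∑ A ∈ G.edgeFinset.powerset,
    (-1) ^ A.card * x ^ (bondRank G.edgeFinset G.edgeFinset - bondRank G.edgeFinset A)

open Pool.Agent.K4H96.VT in
/-- the graph `G₀` -/
theorem base [Fintype V] (G₀ : SimpleGraph V) (hc : G₀.Connected) (h3 : 3 ≤ Fintype.card V)
    (ht : VertexTransitive G₀ ∨ EdgeTransitive G₀ ∧ ∀ v, 3 ≤ (G₀.neighborSet v).ncard)
    (hex : ¬ Exceptional G₀) :
    ∃ f : V → V → ℤ, Circ G₀ f ∧ ∀ u v, G₀.Adj u v → 1 ≤ |f u v| ∧ |f u v| ≤ 4 := by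
  classical
  by_contra hno
  have hvt : VertexTransitive G₀ := by
    by_contra hnv
    rcases ht with h | ⟨h, hd⟩
    · exact hnv h
    · exact hno (et_flow G₀ hc h (fun v => by rw [← ncard_nb]; exact hd v) hnv)
  have h1 := mt (vertexTransitive G₀ hc h3 hvt) hno
  rw [Classical.not_imp] at h1
  obtain ⟨hd, h2⟩ := h1
  have hd' : ∀ v, (G₀.neighborSet v).ncard = 3 := fun v => by rw [ncard_nb]; exact hd v
  have hnb : ¬ G₀.Colorable 2 := fun h => hno (cubic_bip hd' h)
  have key : (∀ (a : V) (c : G₀.Walk a a), c.IsCycle → 12 ≤ c.length) → False := by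
    intro h12
    refine hex ⟨hd', hvt, hnb, Or.inl ⟨h12, ?_⟩⟩
    by_cases het : EdgeTransitive G₀
    · exact Or.inl het
    · right
      obtain ⟨K, hKG, hi, hK, m, hodd, hm⟩ := odd_factor G₀ hvt hd' het hno
      refine ⟨K, hKG, hi, hK, m, hodd, ?_, hm⟩
      obtain ⟨a⟩ := hc.nonempty
      obtain ⟨c, hcc⟩ := exists_cyc hK a
      have h4 := h12 a (c.mapLe hKG) (hcc.mapLe hKG)
      rw [SimpleGraph.Walk.length_map, hm a c hcc] at h4
      have h5 : m ≠ 12 := by
        rintro rfl
        exact absurd hodd (by decide)
      omega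
  by_cases h12 : ∀ (a : V) (c : G₀.Walk a a), c.IsCycle → 12 ≤ c.length
  · exact key h12
  · have h11 : ∃ (a : V) (c : G₀.Walk a a), c.IsCycle ∧ c.length ≤ 11 := by
      push Not at h12
      obtain ⟨a, c, hcc, hl⟩ := h12
      exact ⟨a, c, hcc, by omega⟩
    have h24 : ∀ (a : V) (c : G₀.Walk a a), c.IsCycle → c.length = 3 ∨ 24 ≤ c.length := by
      intro a c hcc
      by_contra hcon
      push Not at hcon
      exact h2 ⟨h11, a, c, hcc, hcon.1, by omega⟩
    obtain ⟨a, c, hcc, hl⟩ := h11
    refine hex ⟨hd', hvt, hnb, Or.inr ⟨⟨a, c, hcc, ?_⟩, h24⟩⟩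
    have := h24 a c hcc
    omega

open Pool.Agent.K4H96.VT in
/-- flows of coverings -/
theorem lift [Fintype V] [Fintype W] (G₀ : SimpleGraph V) (G : SimpleGraph W) (p : W → V)
    (hp : IsCovering G₀ G p)
    (h : ∃ f : V → V → ℤ, Circ G₀ f ∧ ∀ u v, G₀.Adj u v → 1 ≤ |f u v| ∧ |f u v| ≤ 4) :
    ∃ f : W → W → ℤ, Circ G f ∧ ∀ u v, G.Adj u v → 1 ≤ |f u v| ∧ |f u v| ≤ 4 := by
  classical
  obtain ⟨f, hf, hf2⟩ := h
  obtain ⟨hp1, hp2⟩ := hp
  refine ⟨fun u v => if G.Adj u v then f (p u) (p v) else 0, ⟨fun u v => ?_, fun u v h => ?_,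
    fun u => ?_⟩, fun u v h => ?_⟩
  · show (if G.Adj u v then f (p u) (p v) else 0) = - (if G.Adj v u then f (p v) (p u) else 0)
    by_cases h : G.Adj u v
    · rw [if_pos h, if_pos h.symm]; exact hf.anti _ _
    · rw [if_neg h, if_neg (fun h' => h h'.symm), neg_zero]
  · exact if_neg h
  · show ∑ v, (if G.Adj u v then f (p u) (p v) else 0) = 0
    rw [← Finset.sum_filter, ← hf.bal (p u)]
    have h1 : ∑ y, f (p u) y = ∑ y ∈ Finset.univ.filter (fun y => G₀.Adj (p u) y), f (p u) y := by
      rw [Finset.sum_filter]
      refine Finset.sum_congr rfl fun y _ => ?_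
      split_ifs with h2
      · rfl
      · exact hf.supp _ _ h2
    rw [h1]
    refine Finset.sum_bij (fun v _ => p v) ?_ ?_ ?_ ?_
    · intro v hv
      exact Finset.mem_filter.2 ⟨Finset.mem_univ _, hp1 u v (Finset.mem_filter.1 hv).2⟩
    · intro v hv v' hv' hvv
      have h2 := (Finset.mem_filter.1 hv).2
      have h3 := (Finset.mem_filter.1 hv').2
      exact (hp2 u (p v) (hp1 u v h2)).unique ⟨h2, rfl⟩ ⟨h3, hvv.symm⟩
    · intro y hy
      obtain ⟨v, ⟨h2, h3⟩, -⟩ := hp2 u y (Finset.mem_filter.1 hy).2
      exact ⟨v, Finset.mem_filter.2 ⟨Finset.mem_univ _, h2⟩, h3⟩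
    · intro v _
      rfl
  · show 1 ≤ |if G.Adj u v then f (p u) (p v) else 0| ∧ |if G.Adj u v then f (p u) (p v) else 0| ≤ 4
    rw [if_pos h]
    exact hf2 _ _ (hp1 u v h)

section CharPoly

variable [Fintype W] [DecidableEq W] (G : SimpleGraph W) [DecidableRel G.Adj]

open Pool.Agent.K4H96.VT in
theorem comp_eq (A : Finset G.edgeSet) :
    Pool.Agent.Results.MP_c8786f_co.ElevenNewEdges.components (sr G) (ds G) A =
      components (A.map (Function.Embedding.subtype _)) := by
  unfold Pool.Agent.Results.MP_c8786f_co.ElevenNewEdges.components components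
  have h : SimpleGraph.fromRel (fun u v : W => ∃ e ∈ A, sr G e = u ∧ ds G e = v) =
      SimpleGraph.fromEdgeSet ((A.map (Function.Embedding.subtype _) : Finset (Sym2 W)) :
        Set (Sym2 W)) := by
    ext u v
    rw [SimpleGraph.fromRel_adj, SimpleGraph.fromEdgeSet_adj]
    simp only [Finset.coe_map, Function.Embedding.subtype_apply, Set.mem_image, Finset.mem_coe]
    constructor
    · rintro ⟨hne, ⟨e, he, h1, h2⟩ | ⟨e, he, h1, h2⟩⟩
      · exact ⟨⟨e, he, by rw [← mk_sd G e, h1, h2]⟩, hne⟩
      · exact ⟨⟨e, he, by rw [← mk_sd G e, h1, h2]; exact Sym2.eq_swap⟩, hne⟩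
    · rintro ⟨⟨e, he, h1⟩, hne⟩
      refine ⟨hne, ?_⟩
      rw [← mk_sd G e, Sym2.eq_iff] at h1
      rcases h1 with ⟨a, b⟩ | ⟨a, b⟩
      · exact Or.inl ⟨e, he, a, b⟩
      · exact Or.inr ⟨e, he, a, b⟩
  rw [h]

theorem map_univ_eq : (Finset.univ : Finset G.edgeSet).map (Function.Embedding.subtype _) =
    G.edgeFinset := by
  ext e
  simp [SimpleGraph.mem_edgeFinset]

theorem map_compl_eq (A : Finset G.edgeSet) : Aᶜ.map (Function.Embedding.subtype _) =
    G.edgeFinset \ A.map (Function.Embedding.subtype _) := by
  ext e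
  simp only [Finset.mem_map, Finset.mem_compl, Function.Embedding.subtype_apply, Finset.mem_sdiff,
    SimpleGraph.mem_edgeFinset, Subtype.exists, exists_and_right, exists_eq_right, not_exists]
  constructor
  · rintro ⟨h1, h2⟩
    exact ⟨h1, fun _ => h2⟩
  · rintro ⟨h1, h2⟩
    exact ⟨h1, h2 h1⟩

open Pool.Agent.K4H96.VT in
theorem rank_eq (A : Finset G.edgeSet) :
    Pool.Agent.Results.MP_c8786f_co.ElevenNewEdges.bondRank (sr G) (ds G) A =
      bondRank G.edgeFinset (A.map (Function.Embedding.subtype _)) := by
  unfold Pool.Agent.Results.MP_c8786f_co.ElevenNewEdges.bondRank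
    Pool.Agent.Results.MP_c8786f_co.ElevenNewEdges.cycleRank bondRank cycleRank
  rw [comp_eq, comp_eq, map_univ_eq, map_compl_eq, Finset.card_map]

open Pool.Agent.K4H96.VT in
theorem poly_eq (x : ℤ) :
    Pool.Agent.Results.MP_c8786f_co.ElevenNewEdges.bondCharPoly (sr G) (ds G) x =
      bondCharPoly G x := by
  unfold Pool.Agent.Results.MP_c8786f_co.ElevenNewEdges.bondCharPoly bondCharPoly
  refine Finset.sum_bij (fun A _ => A.map (Function.Embedding.subtype _)) ?_ ?_ ?_ ?_
  · intro A _
    rw [Finset.mem_powerset, ← map_univ_eq]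
    exact Finset.map_subset_map.2 (Finset.subset_univ A)
  · intro A _ B _ h
    exact Finset.map_injective _ h
  · intro B hB
    rw [Finset.mem_powerset] at hB
    refine ⟨Finset.univ.filter (fun e => e.1 ∈ B), Finset.mem_univ _, ?_⟩
    ext e
    simp only [Finset.mem_map, Finset.mem_filter, Finset.mem_univ, true_and,
      Function.Embedding.subtype_apply, Subtype.exists, exists_and_left, exists_prop,
      exists_eq_right_right]
    constructor
    · rintro ⟨h1, -⟩
      exact h1
    · intro h1
      exact ⟨h1, SimpleGraph.mem_edgeFinset.1 (hB h1)⟩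
  · intro A _
    rw [rank_eq, rank_eq, map_univ_eq, Finset.card_map]

end CharPoly

theorem result :
    ∀ (V W : Type) [Fintype V] [Fintype W] [DecidableEq W] (G₀ : SimpleGraph V)
      (G : SimpleGraph W) [DecidableRel G.Adj] (p : W → V),
      G₀.Connected → 3 ≤ Fintype.card V →
      (VertexTransitive G₀ ∨ EdgeTransitive G₀ ∧ ∀ v, 3 ≤ (G₀.neighborSet v).ncard) →
      ¬ Exceptional G₀ →
      IsCovering G₀ G p →
      NowhereZeroFiveFlow G ∧ ∀ q : ℕ, 5 ≤ q → 0 < bondCharPoly G q := by
  intro V W _ _ _ G₀ G _ p hc h3 ht hex hp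
  obtain ⟨f, hf, hf2⟩ := lift G₀ G p hp (base G₀ hc h3 ht hex)
  refine ⟨⟨f, hf.anti, hf.supp, hf.bal, hf2⟩, fun q hq => ?_⟩
  rw [← poly_eq]
  exact Pool.Agent.Results.MP_c8786f_co.ElevenNewEdges.charPoly_pos _ _ _
    (Pool.Agent.K4H96.VT.isFlow_of G hf)
    (fun e => hf2 _ _ (Pool.Agent.K4H96.VT.adj_sd G e)) q hq

end Pool.Agent.Results.MP_c8786f_co.TransitiveGraphs
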